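import Pool.Agent.Y922.ZF.Art

/-!
# Values of Artin `L`-series at almost all algebraic points

Let `N` be a Galois extension of `ℚ`. All Artin `L`-series of `N` (of the irreducible characters, or more generally of
linearly independent class functions), their derivatives and `π^s` satisfy, relative to arbitrary constants (such as
regulators), no (approximate) polynomial relations of bounded degree and polynomially bounded height at almost all
algebraic points (tuples of points) `s`, for instance at almost all algebraic points near `s = 0`. The proof contains the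
algebraic independence over `ℂ(s)` of these functions, from Chebotarev's theorem.
-/

set_option autoImplicit false

open NumberField

namespace Pool.Agent.Results.MP_46b841_nt.ArtinSeries

/-- The elements of the number field `F` with image in `K` which are quotients of two integers of `F` all of whose
conjugates have absolute value at most `T`. -/
def Points (F : Type) [Field F] [NumberField F] (ι : F →+* ℂ) (K : Set ℂ) (T : ℝ) : Set F :=
  {x | ι x ∈ K ∧ ∃ a b : 𝓞 F, b ≠ 0 ∧ (∀ φ : F →+* ℂ, ‖φ a‖ ≤ T ∧ ‖φ b‖ ≤ T) ∧ x = a / b}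

/-- For all but finitely many primes `p` the number `a(p)` is the value of `χ` at the Frobenius elements of `p` in the
Galois extension `N` of `ℚ`: `a(p) = χ(σ)` if `φ(σ x) = φ(x)^p` for a homomorphism `φ` from the ring of integers of `N` to
the algebraic closure of the field with `p` elements. For a character `χ` the coefficients of the Artin `L`-series
`L(s, χ)`, with any finite set of Euler factors removed or changed, have this property. -/
def IsArtin (N : Type) [Field N] [NumberField N] (χ : Gal(N/ℚ) → ℂ) (a : ℕ → ℂ) : Prop :=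
  ∃ D : ℕ, ∀ p : ℕ, D < p → ∀ [Fact p.Prime], ∀ (φ : 𝓞 N →+* AlgebraicClosure (ZMod p)) (σ : Gal(N/ℚ)),
    (∀ x : 𝓞 N, φ (σ • x) = φ x ^ p) → a p = χ σ

/-- The functions `L_y` are given by the Dirichlet series `∑ a_y(n) n^(-s)`, absolutely convergent, for `Re s > 1`, and
they are analytic on the connected set `U`, which contains all large real numbers. -/
structure Continued {Y : Type} (a : Y → ℕ → ℂ) (L : Y → ℂ → ℂ) (U : Set ℂ) : Prop where
  summable : ∀ y, ∀ s : ℂ, 1 < s.re → LSeriesSummable (a y) s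
  eq_series : ∀ y, ∀ s : ℂ, 1 < s.re → L y s = LSeries (a y) s
  connected : IsPreconnected U
  real : ∀ᶠ s : ℝ in Filter.atTop, (s : ℂ) ∈ U
  analytic : ∀ y, AnalyticOnNhd ℂ (L y) U

/-- The numbers `β_l^s` and `L_y(s), L_y'(s), …, L_y^(w-1)(s)`. -/
noncomputable def values {Y : Type} {h : ℕ} (β : Fin h → ℝ) (L : Y → ℂ → ℂ) (w : ℕ) (s : ℂ) : Fin h ⊕ (Y × Fin w) → ℂ
  | Sum.inl l => (β l : ℂ) ^ s
  | Sum.inr x => iteratedDeriv x.2 (L x.1) s

/-- The `n`-tuples `t` of points of `F` for which there is a polynomial `P` of degree at most `d` in each variable, with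
coefficients of the form `∑ ξ_i ι(c_i)`, where the `c_i` are integers of `F` all of whose conjugates have absolute value
at most `T ^ A`, such that the value of `P` at the numbers `values β L w (t_j)`, `j ≤ n`, is at most `T ^ (-B)` times the
absolute value of some nonzero coefficient of `P`. -/
def Exceptional {Y : Type} {h : ℕ} (β : Fin h → ℝ) (L : Y → ℂ → ℂ) (w : ℕ) (n d : ℕ) {g : ℕ} (F : Type) [Field F] [NumberField F] (ι : F →+* ℂ)
    (ξ : Fin g → ℂ) (K : Set ℂ) (A B T : ℝ) : Set (Fin n → F) :=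
  {t | (∀ j, t j ∈ Points F ι K T) ∧ ∃ P : MvPolynomial (Fin n × (Fin h ⊕ (Y × Fin w))) ℂ,
    (∀ x, P.degreeOf x ≤ d) ∧
    (∀ s, ∃ c : Fin g → 𝓞 F, (∀ i (φ : F →+* ℂ), ‖φ (c i)‖ ≤ T ^ A) ∧ P.coeff s = ∑ i, ξ i * ι (c i)) ∧
    ∃ s₀, P.coeff s₀ ≠ 0 ∧
      ‖MvPolynomial.aeval (fun x : Fin n × (Fin h ⊕ (Y × Fin w)) => values β L w (ι (t x.1)) x.2) P‖ ≤
        T ^ (-B) * ‖P.coeff s₀‖}

/-- Let `β_1, …, β_h` be positive real numbers such that `∏ β_l ^ v_l` is irrational for all nonzero `v ∈ ℤ^h` (for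
instance `h = 1` and `β_1 = π`, see `Y922.ZF.pi_ok`). Let `N` be a Galois extension of `ℚ`, let `χ_y` be finitely many
linearly independent functions on its Galois group (for instance the irreducible characters), let `L_y` be the
`L`-series of `χ_y` in the sense of `IsArtin`, analytic on a connected set `U` as in `Continued`, and let `K` be a compact
subset of `U`. For all `w`, `m`, `n`, `g`, `d`, `A` and `ε > 0` there are `B`, `C`, `T₀` such that for every number field
`F` of degree at most `m`, every embedding of `F` in `ℂ`, all complex numbers `ξ_1, …, ξ_g` and all `T ≥ T₀` the number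
of exceptional `n`-tuples is at most `C T^ε M^(n - 1)`, where `M` is the number of points. -/
theorem result {Y : Type} [Fintype Y] [DecidableEq Y] {h : ℕ} (β : Fin h → ℝ) (hβ0 : ∀ l, 0 < β l)
    (hβ : ∀ v : Fin h → ℤ, (∃ x : ℚ, ∏ l, β l ^ v l = x) → v = 0) (N : Type) [Field N] [NumberField N] [IsGalois ℚ N]
    (χ : Y → Gal(N/ℚ) → ℂ) (hχ : LinearIndependent ℂ χ) (a : Y → ℕ → ℂ) (ha : ∀ y, IsArtin N (χ y) (a y))
    (L : Y → ℂ → ℂ) (U : Set ℂ) (hc : Continued a L U) (w m n g d : ℕ) (K : Set ℂ) (hK : IsCompact K) (hKU : K ⊆ U) (A ε : ℝ) (hε : 0 < ε) :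
    ∃ B C T₀ : ℝ, ∀ (F : Type) [Field F] [NumberField F], Module.finrank ℚ F ≤ m → ∀ (ι : F →+* ℂ) (ξ : Fin g → ℂ)
      (T : ℝ), T₀ ≤ T → (Exceptional β L w n d F ι ξ K A B T).Finite ∧
        ((Exceptional β L w n d F ι ξ K A B T).ncard : ℝ) ≤ C * T ^ ε * ((Points F ι K T).ncard : ℝ) ^ (n - 1) := by
  classical
  obtain ⟨B, C, T₀, hC, hT₀, H⟩ := Y124.excNF (h := Fin g) m n d (Y922.ZF.vQ β L w) K (fun g' => Y922.ZF.oneQ g' β hβ0 hβ a (Y922.ZF.PP_of_PI a (Y922.ZF.PI_artin N χ hχ a ha)) 1 hc.summable L hc.eq_series U hc.connected hc.real hc.analytic w K hK hKU) A ε hε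
  refine ⟨B, C, T₀, fun F _ _ hF ι ξ T hT => ?_⟩
  have hT0 : 0 ≤ T := by linarith
  have hP : Points F ι K T = {x : F | Y120.HtLe F T x ∧ ι x ∈ K} := by
    ext x
    constructor
    · rintro ⟨h1, a, b, hb, hab, hx⟩
      exact ⟨⟨a, b, hb, Y120.house_le F hT0 fun φ => (hab φ).1, Y120.house_le F hT0 fun φ => (hab φ).2, hx⟩, h1⟩
    · rintro ⟨⟨a, b, hb, ha, hb', hx⟩, h1⟩
      exact ⟨h1, a, b, hb, fun φ => ⟨(Y120.house_ge F _ φ).trans ha, (Y120.house_ge F _ φ).trans hb'⟩, hx⟩
  have hval : ∀ (s : ℂ) y, values β L w s y = (Y922.ZF.vQ β L w) s y := by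
    intro s y
    rcases y with l | x <;> rfl
  have hsub : Exceptional β L w n d F ι ξ K A B T ⊆ Y124.ExcNF n d F ι ξ ((Y922.ZF.vQ β L w)) K A B T := by
    rintro t ⟨ht, P, hPd, hPc, s₀, hs₀, hs⟩
    refine ⟨fun j => ?_, P, hPd, hPc, s₀, hs₀, ?_⟩
    · have h1 := ht j
      rw [hP] at h1
      exact h1
    · simp only [hval] at hs
      exact hs
  obtain ⟨h1, h2⟩ := H F hF ι ξ T hT
  refine ⟨h1.subset hsub, ?_⟩
  rw [hP]
  exact le_trans (by exact_mod_cast Set.ncard_le_ncard hsub h1) h2

end Pool.Agent.Results.MP_46b841_nt.ArtinSeries
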