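import Pool.Agent.Y691.ST.SplitThm

/-!
# Stark's conjecture and extensions which are completely split or local at given places
-/

set_option autoImplicit false

open Pool.Agent.Y691.ST

namespace Pool.Agent.Results.MP_46b841_nt.SplitOrLocal

/-- **Stark's conjecture and extensions with small decomposition groups.** Let `σ` be an automorphism of
`ℂ` and let `D U θ` be the quotient `A_S(θ, φ_S)^σ / A_S(θ^σ, φ_S)` for the Artin character `θ` of the
number field `K = Qbar^U`, with its known properties. Stark's conjecture (for `σ`) says that it is `1`.
Let `M` be a finite Galois extension of `ℚ` (the fixed field of `N`) and `V` a finite set of places of `ℚ`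
(given by absolute values of the algebraic closure which are nontrivial on `ℚ`), for example the real
place and all primes which are ramified in `M`.

Assume Stark's conjecture for the linear characters `χ` of order at least `3` of the number fields `K`
such that, for some prime `p`, the character `χ` is trivial on `K M`, the Galois group of `K M / K` is an
extension of a `p`-group by a cyclic group, and

* either all decomposition groups of `K M / K` at the places above the places in `V` are `p`-groups,
* or the Galois group of `K M / K` is contained in the decomposition group of a place of `M` above a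
  place in `V`.

Then Stark's conjecture is true for all characters of the Galois group of `M / K`, for all subfields `K`
of `M`. -/
theorem result {d : (GalQ → ℂ) → ℂˣ} {D : (U : Subgroup GalQ) → (U → ℂ) → ℂˣ}
    (hD : IsDefect d D) {V : Finset (AbsoluteValue Qbar ℝ)} (hV : ArePlaces V)
    {N : Subgroup GalQ} (hNn : N.Normal) (hN : IsOpen (N : Set GalQ))
    (good : HoldsAdmissible V N D) : HoldsFor N D := by
  intro U θ hθ
  have hsub : ∀ (W : Subgroup GalQ), IsOpen ((N.subgroupOf W : Subgroup W) : Set W) :=
    fun W => hN.preimage continuous_subtype_val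
  have hlin : ∀ (W : Subgroup GalQ) (χ : W →* ℂˣ), IsOpenLinear W χ →
      D W (lin χ) = d (indF W χ) := by
    intro W χ h
    obtain ⟨h1, h2⟩ := isOpenLinear_iff.mp h
    rw [hD.ind W _ h1 (isArtin_lin h2), indC_lin]
  obtain ⟨n, ρ, hNU, rfl⟩ := hθ
  have hU : IsOpen (U : Set GalQ) := isOpen_of_le hN fun g hg => (hNU g hg).1
  have hker : IsOpen {u : U | ρ u = 1} := by
    have h1 : IsOpen ((ρ.ker : Subgroup U) : Set U) := by
      refine Subgroup.isOpen_mono (H₁ := N.subgroupOf U) ?_ (hsub U)
      intro u hu
      obtain ⟨_, h2⟩ := hNU u hu
      exact h2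
    exact h1
  have htr : trc U n ρ = fun u => (ρ u).trace := rfl
  rw [htr, hD.ind U _ hU ⟨n, ρ, hker, rfl⟩]
  obtain ⟨k, R, hR, hR2⟩ := exists_ind hN hNU
  rw [hR2]
  refine psplit_one hD.add hV hN ?_ ?_ hR
  · intro W χ h h3
    obtain ⟨h1, h2⟩ := isOpenLinear_iff.mp h
    refine hD.rational _ ?_ (rational_indF (Subgroup.quotient_finite_of_isOpen W h1) h3)
    rw [← indC_lin]
    exact isArtin_ind h1 (isArtin_lin h2)
  · intro p W χ hp h
    have h1 : IsOpen {u : W | χ u = 1} := by
      have h2 : IsOpen ((χ.ker : Subgroup W) : Set W) := by
        refine Subgroup.isOpen_mono (H₁ := N.subgroupOf W) ?_ (hsub W)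
        intro u hu
        exact h.trivial u hu
      exact h2
    rw [← hlin W χ (isOpenLinear_iff.mpr ⟨h.isOpen, h1⟩)]
    exact good p W χ hp h

end Pool.Agent.Results.MP_46b841_nt.SplitOrLocal
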