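import Pool.Agent.Y691.ST.Ind

/-!
# Stark's conjecture and totally complex base fields
-/

set_option autoImplicit false

open Pool.Agent.Y691.ST

namespace Pool.Agent.Results.MP_46b841_nt.TotallyComplexBases

/-- **Stark's conjecture and totally complex base fields.** Let `σ` be an automorphism of `ℂ` and let
`D U θ` be the quotient `A_S(θ, φ_S)^σ / A_S(θ^σ, φ_S)` for the Artin character `θ` of the number field
`K = Qbar^U`, with its known properties. Stark's conjecture (for `σ`) says that `D U θ = 1` for all `U`
and `θ`.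

* It is true for all number fields and all Artin characters if and only if it is true for the linear
  characters of the totally complex number fields and for the linear characters of order `2^k ≥ 4` of
  the number fields which are not totally complex.
* If it is true for the linear characters of the totally complex number fields, then for all number
  fields and all Artin characters the quotient `D U θ` is a root of unity of `2`-power order. -/
theorem result {d : (GalQ → ℂ) → ℂˣ} {D : (U : Subgroup GalQ) → (U → ℂ) → ℂˣ}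
    (hD : IsDefect d D) :
    (Holds D ↔ HoldsLinear TotallyComplex D ∧ HoldsTwoPower (fun U => ¬ TotallyComplex U) D) ∧
    (HoldsLinear TotallyComplex D → HoldsUpToTwo D) := by
  obtain ⟨c, φ, hφ, hconj⟩ := exists_conjugation
  have hd : IsDef d := ⟨hD.add, hD.rational⟩
  have hlin : ∀ (U : Subgroup GalQ) (χ : U →* ℂˣ), IsOpenLinear U χ →
      D U (lin χ) = d (indF U χ) := by
    intro U χ h
    obtain ⟨h1, h2⟩ := isOpenLinear_iff.mp h
    rw [hD.ind U _ h1 (isArtin_lin h2), indC_lin]
  have hz := fun g (h : g * c = c * g) => centralizer hφ h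
  have hgood : HoldsLinear TotallyComplex D →
      ∀ (U : Subgroup GalQ) (χ : U →* ℂˣ), IsOpenLinear U χ → (∀ g, g * c * g⁻¹ ∉ U) →
        d (indF U χ) = 1 := by
    intro h U χ hχ hU
    obtain ⟨h1, h2⟩ := isOpenLinear_iff.mp hχ
    rw [← hlin U χ hχ]
    refine h U χ h1 h2 fun c' hc' => ?_
    obtain ⟨g, rfl⟩ := hconj c' hc'
    exact hU g
  refine ⟨⟨fun h => ⟨fun U χ h1 h2 _ => h U _ h1 (isArtin_lin h2),
    fun U χ h1 h2 _ _ _ => h U _ h1 (isArtin_lin h2)⟩, ?_⟩, ?_⟩
  · rintro ⟨ha, hb⟩ U θ hU hθ
    rw [hD.ind U θ hU hθ]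
    refine prof_eq_one hz (conj_sq hφ) (conj_ne_one hφ) hd (hgood ha) ?_ (isArtin_ind hU hθ)
    intro V χ hχ hk
    obtain ⟨h1, h2⟩ := isOpenLinear_iff.mp hχ
    rw [← hlin V χ hχ]
    by_cases hV : TotallyComplex V
    · exact ha V χ h1 h2 hV
    · by_cases h3 : χ ^ 2 = 1
      · rw [hlin V χ hχ]
        refine hD.rational _ ?_ (rational_indF (Subgroup.quotient_finite_of_isOpen V h1) h3)
        rw [← indC_lin]
        exact isArtin_ind h1 (isArtin_lin h2)
      · exact hb V χ h1 h2 hV hk h3
  · intro ha U θ hU hθ
    rw [hD.ind U θ hU hθ]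
    exact prof_pow hz (conj_sq hφ) (conj_ne_one hφ) hd (hgood ha) (isArtin_ind hU hθ)

end Pool.Agent.Results.MP_46b841_nt.TotallyComplexBases
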