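import Pool.Agent.Y951.SQ.Main

/-!
# Stark's conjecture over totally complex fields implies Stark's conjecture up to sign
-/

set_option autoImplicit false

open Pool.Agent.Y691.ST Pool.Agent.Y951.SE Pool.Agent.Y951.SQ

namespace Pool.Agent.Results.MP_46b841_nt.UpToSign

/-- **Stark's conjecture up to sign.** Let `σ` be an automorphism of `ℂ` and let `D U θ` be the quotient
`A_S(θ, φ_S)^σ / A_S(θ^σ, φ_S)` for the Artin character `θ` of the number field `K = Qbar^U`, with its
known properties. Stark's conjecture for `θ` (and `σ`) says that `D U θ = 1`. Let `m = 1` (or any `m`) and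
suppose that Stark's conjecture is true for the linear characters of the totally complex number fields
(`D U θ ^ m = 1`).

* Then Stark's conjecture is true up to sign for all number fields `K` and all characters of all finite
  Galois extensions of `K`: `D U θ = ±1` (`D U θ ^ (2m) = 1`).
* If `L / K` is a finite Galois extension such that there is no cyclic quartic extension `K₂ / K₁` with
  `K ⊆ K₁ ⊆ K₂ ⊆ L` and with a real place of `K₁` (for example if `Gal(L / K)` has no element of order
  `4`), then Stark's conjecture is true for the characters of `Gal(L / K)` (`D U θ ^ m = 1`). -/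
theorem result {d : (GalQ → ℂ) → ℂˣ} {D : (U : Subgroup GalQ) → (U → ℂ) → ℂˣ}
    (hD : IsDefect d D) {m : ℕ} (h : HoldsLinear TotallyComplex (fun U θ => D U θ ^ m)) :
    HoldsPower D (2 * m) ∧ HoldsNoQuartic D m := by
  obtain ⟨h1, h2, -⟩ := main (isDef'_of_defect hD) hD.ind h
  exact ⟨h1, h2⟩

end Pool.Agent.Results.MP_46b841_nt.UpToSign
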